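import Pool.Agent.H1.LF.Ip

/-!
# The number of conjugates of the elements of `x R(x)`
-/

namespace Pool.Agent.H1.LF

variable {G : Type} [Group G] {M H : Subgroup G} {L N : G → Subgroup G}

/-- `|C_G(x)| = |R(x)| |C_M(x)|` -/
theorem card_cent [Finite G] (D : LiftData M H L N) {x : G} (hx : x ∈ H) (hx1 : x ≠ 1) :
    Nat.card (Subgroup.centralizer {x} : Subgroup G) =
      Nat.card (RR M H N x) * Nat.card (M ⊓ Subgroup.centralizer {x} : Subgroup G) := by
  rw [← Nat.card_prod]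
  symm
  refine Nat.card_congr (Equiv.ofBijective
    (fun p : RR M H N x × (M ⊓ Subgroup.centralizer {x} : Subgroup G) =>
      (⟨p.1 * p.2, ?_⟩ : (Subgroup.centralizer {x} : Subgroup G))) ⟨?_, ?_⟩)
  · refine (Subgroup.centralizer {x}).mul_mem ?_ (Subgroup.mem_inf.1 p.2.2).2
    exact Subgroup.mem_centralizer_singleton_iff.2 (comm_of_mem_RR p.1.2)
  · rintro ⟨r, m⟩ ⟨r', m'⟩ h
    have h1 : (r : G) * m = r' * m' := congrArg Subtype.val h
    have h2 : (r' : G)⁻¹ * r = m' * (m : G)⁻¹ := by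
      rw [inv_mul_eq_iff_eq_mul, ← mul_assoc, ← h1]
      group
    have h3 := RR_disj D ((RR M H N x).mul_mem ((RR M H N x).inv_mem r'.2) r.2)
      (by rw [h2]; exact M.mul_mem (Subgroup.mem_inf.1 m'.2).1
            (M.inv_mem (Subgroup.mem_inf.1 m.2).1))
    have h4 : r = r' := Subtype.ext (by rw [inv_mul_eq_one] at h3; exact h3.symm)
    subst h4
    have h5 : m = m' := Subtype.ext (mul_left_cancel h1)
    rw [h5]
  · rintro ⟨c, hc⟩
    have hc' := Subgroup.mem_centralizer_singleton_iff.1 hc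
    have hk : c⁻¹ * x * c ∈ H := by
      rw [mul_assoc, ← hc', inv_mul_cancel_left]
      exact hx
    obtain ⟨r, hr, m, hm, hkm⟩ := exists_RR_mul D hx hx1 hk
    refine ⟨(⟨r, hr⟩, ⟨m, Subgroup.mem_inf.2 ⟨hm, ?_⟩⟩), Subtype.ext hkm.symm⟩
    have h1 : m = r⁻¹ * c := by rw [hkm]; group
    rw [h1]
    exact (Subgroup.centralizer {x}).mul_mem ((Subgroup.centralizer {x}).inv_mem
      (Subgroup.mem_centralizer_singleton_iff.2 (comm_of_mem_RR hr))) hc

/-- The set of all conjugates of the elements of `x R(x)` has `|G : C_M(x)|` elements. -/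
theorem card_conj [Finite G] (D : LiftData M H L N) {x : G} (hx : x ∈ H) (hx1 : x ≠ 1) :
    Nat.card {g : G // ∃ r ∈ RR M H N x, ∃ k : G, g = k * (x * r) * k⁻¹} *
      Nat.card (M ⊓ Subgroup.centralizer {x} : Subgroup G) = Nat.card G := by
  classical
  have hch : ∀ g : {g : G // ∃ r ∈ RR M H N x, ∃ k : G, g = k * (x * r) * k⁻¹},
      ∃ p : G × RR M H N x, (g : G) = p.1 * (x * p.2) * p.1⁻¹ := by
    rintro ⟨g, r, hr, k, hk⟩
    exact ⟨(k, ⟨r, hr⟩), hk⟩
  choose p hp using hch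
  have hcent : ∀ (k : G) (r : RR M H N x)
      (g : {g : G // ∃ r ∈ RR M H N x, ∃ k : G, g = k * (x * r) * k⁻¹}),
      (g : G) = k * (x * r) * k⁻¹ → ((p g).1⁻¹ * k) * x = x * ((p g).1⁻¹ * k) ∧
        ((p g).1⁻¹ * k) * r * ((p g).1⁻¹ * k)⁻¹ = (p g).2 := by
    intro k r g hg
    have h1 : ((p g).1⁻¹ * k) * (x * r) * ((p g).1⁻¹ * k)⁻¹ = x * (p g).2 := by
      have : ((p g).1⁻¹ * k) * (x * r) * ((p g).1⁻¹ * k)⁻¹ =
          (p g).1⁻¹ * (k * (x * r) * k⁻¹) * (p g).1 := by group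
      rw [this, ← hg, hp g]
      group
    have h2 := sep D hx hx r.2 (p g).2.2 h1
    exact ⟨by rw [← mul_inv_eq_iff_eq_mul]; exact h2.1, h2.2⟩
  have e : G × RR M H N x ≃
      {g : G // ∃ r ∈ RR M H N x, ∃ k : G, g = k * (x * r) * k⁻¹} ×
        (Subgroup.centralizer {x} : Subgroup G) := by
    refine
      { toFun := fun q => (⟨q.1 * (x * q.2) * q.1⁻¹, q.2, q.2.2, q.1, rfl⟩,
          ⟨(p ⟨q.1 * (x * q.2) * q.1⁻¹, q.2, q.2.2, q.1, rfl⟩).1⁻¹ * q.1,
            Subgroup.mem_centralizer_singleton_iff.2 (hcent q.1 q.2 _ rfl).1⟩)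
        invFun := fun q => ((p q.1).1 * q.2, ⟨(q.2 : G)⁻¹ * (p q.1).2 * (q.2 : G)⁻¹⁻¹, ?_⟩)
        left_inv := ?_
        right_inv := ?_ }
    · refine RR_cent D (p q.1).2.2 ?_
      have := Subgroup.mem_centralizer_singleton_iff.1 q.2.2
      rw [inv_mul_eq_iff_eq_mul, ← mul_assoc, this, mul_assoc, mul_inv_cancel, mul_one]
    · rintro ⟨k, r⟩
      have h1 := (hcent k r ⟨k * (x * r) * k⁻¹, r, r.2, k, rfl⟩ rfl).2
      refine Prod.ext ?_ (Subtype.ext ?_)
      · simp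
      · simp only
        rw [← h1]
        group
    · rintro ⟨g, c, hc⟩
      have hc' := Subgroup.mem_centralizer_singleton_iff.1 hc
      have h1 : (p g).1 * c * (x * (c⁻¹ * (p g).2 * c⁻¹⁻¹)) * ((p g).1 * c)⁻¹ = (g : G) := by
        have h2 : c * x * c⁻¹ = x := by rw [hc']; group
        rw [hp g]
        calc (p g).1 * c * (x * (c⁻¹ * (p g).2 * c⁻¹⁻¹)) * ((p g).1 * c)⁻¹
            = (p g).1 * ((c * x * c⁻¹) * (p g).2) * (p g).1⁻¹ := by group
          _ = _ := by rw [h2]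
      have h3 : (⟨(p g).1 * c * (x * (c⁻¹ * (p g).2 * c⁻¹⁻¹)) * ((p g).1 * c)⁻¹, _,
          RR_cent D (p g).2.2 (by
            rw [inv_mul_eq_iff_eq_mul, ← mul_assoc, hc', mul_assoc, mul_inv_cancel, mul_one]),
          _, rfl⟩ : {g : G // ∃ r ∈ RR M H N x, ∃ k : G, g = k * (x * r) * k⁻¹}) = g :=
        Subtype.ext h1
      refine Prod.ext h3 (Subtype.ext ?_)
      change (p ⟨(p g).1 * c * (x * (c⁻¹ * (p g).2 * c⁻¹⁻¹)) * ((p g).1 * c)⁻¹, _⟩).1⁻¹ *
        ((p g).1 * c) = c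
      rw [h3]
      group
  have h1 := Nat.card_congr e
  rw [Nat.card_prod, Nat.card_prod, card_cent D hx hx1] at h1
  have hR : 0 < Nat.card (RR M H N x) := Nat.card_pos
  apply Nat.eq_of_mul_eq_mul_right hR
  rw [h1]
  ring

end Pool.Agent.H1.LF
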