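import Pool.Agent.H1.LF.Defs

/-!
# Sums over a coset `t K` for a subgroup `K` of order prime to the order of `t`
-/

namespace Pool.Agent.H1.LF

open scoped Classical

variable {G : Type} [Group G]

/-- For `t` normalising `K`, of order prime to `|K|`: the average of a class function over `t K`
is its average over `t C_K(t)`. -/
theorem coset_sum [Fintype G] (K : Subgroup G) (t : G) (hK : ∀ n ∈ K, t⁻¹ * n * t ∈ K) {A : ℕ}
    (ht : t ^ A = 1) (hA : A.Coprime (Nat.card K)) (ψ : G → ℂ)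
    (hψ : ∀ g x : G, ψ (g * x * g⁻¹) = ψ x) :
    (Nat.card (K ⊓ Subgroup.centralizer {t} : Subgroup G) : ℂ) * ∑ s : K, ψ (t * s) =
      (Nat.card K : ℂ) * ∑ u : (K ⊓ Subgroup.centralizer {t} : Subgroup G), ψ (t * u) := by
  set C : Subgroup G := K ⊓ Subgroup.centralizer {t} with hC
  have hCK : ∀ u : C, (u : G) ∈ K := fun u => (Subgroup.mem_inf.1 u.2).1
  have hCt : ∀ u : C, (u : G) * t = t * u := fun u =>
    Subgroup.mem_centralizer_singleton_iff.1 (Subgroup.mem_inf.1 u.2).2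
  have hmem : ∀ p : K × C, t⁻¹ * p.1 * t * p.2 * (p.1 : G)⁻¹ ∈ K := fun p =>
    K.mul_mem (K.mul_mem (hK _ p.1.2) (hCK p.2)) (K.inv_mem p.1.2)
  let Φ : K × C → K := fun p => ⟨t⁻¹ * p.1 * t * p.2 * (p.1 : G)⁻¹, hmem p⟩
  have hΦ : ∀ p : K × C, t * (Φ p : G) = p.1 * (t * p.2) * (p.1 : G)⁻¹ := by
    intro p
    change t * (t⁻¹ * p.1 * t * p.2 * (p.1 : G)⁻¹) = _
    group
  have hpow : ∀ y ∈ K, y ^ Nat.card K = 1 := fun y hy => pow_card_H hy
  have hsep : ∀ p p' : K × C, Φ p = Φ p' → ((p'.1 : G)⁻¹ * p.1) * t = t * ((p'.1 : G)⁻¹ * p.1) ∧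
      (p'.1 : G)⁻¹ * p.1 * p.2 * ((p'.1 : G)⁻¹ * p.1)⁻¹ = p'.2 := by
    intro p p' h
    have h1 : (p.1 : G) * (t * p.2) * (p.1 : G)⁻¹ = p'.1 * (t * p'.2) * (p'.1 : G)⁻¹ := by
      rw [← hΦ, ← hΦ, h]
    have h2 : ((p'.1 : G)⁻¹ * p.1) * (t * p.2) * ((p'.1 : G)⁻¹ * p.1)⁻¹ = t * p'.2 := by
      calc ((p'.1 : G)⁻¹ * p.1) * (t * p.2) * ((p'.1 : G)⁻¹ * p.1)⁻¹
          = (p'.1 : G)⁻¹ * ((p.1 : G) * (t * p.2) * (p.1 : G)⁻¹) * p'.1 := by group
        _ = _ := by rw [h1]; group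
    have h3 := crt_sep hA ht (hpow _ (hCK p.2)) ht (hpow _ (hCK p'.2)) (hCt p.2) (hCt p'.2) h2
    refine ⟨?_, h3.2⟩
    have h4 := h3.1
    rwa [mul_inv_eq_iff_eq_mul] at h4
  have hle : ∀ s : K, (Finset.univ.filter fun p : K × C => Φ p = s).card ≤ Nat.card C := by
    intro s
    rcases Finset.eq_empty_or_nonempty (Finset.univ.filter fun p : K × C => Φ p = s) with h | h
    · rw [h]
      exact Nat.zero_le _
    · obtain ⟨p', hp'⟩ := h
      rw [Finset.mem_filter] at hp'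
      rw [Nat.card_eq_fintype_card, ← Finset.card_univ]
      have hin : ∀ p : K × C, Φ p = s → (p'.1 : G)⁻¹ * p.1 ∈ C := by
        intro p hp
        have h5 := (hsep p p' (hp.trans hp'.2.symm)).1
        exact Subgroup.mem_inf.2 ⟨K.mul_mem (K.inv_mem p'.1.2) p.1.2,
          Subgroup.mem_centralizer_singleton_iff.2 h5⟩
      refine Finset.card_le_card_of_injOn
        (fun p => if h : Φ p = s then (⟨(p'.1 : G)⁻¹ * p.1, hin p h⟩ : C) else 1)
        (fun _ _ => Finset.mem_coe.2 (Finset.mem_univ _)) ?_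
      intro p hp q hq hpq
      rw [Finset.mem_coe, Finset.mem_filter] at hp hq
      simp only [dif_pos hp.2, dif_pos hq.2, Subtype.mk.injEq] at hpq
      have h6 : p.1 = q.1 := Subtype.ext (mul_left_cancel hpq)
      have h7 := (hsep p q (hp.2.trans hq.2.symm)).2
      rw [h6, inv_mul_cancel, one_mul, inv_one, mul_one] at h7
      exact Prod.ext h6 (Subtype.ext h7)
  have hsum : ∑ s : K, (Finset.univ.filter fun p : K × C => Φ p = s).card =
      ∑ _s : K, Nat.card C := by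
    rw [← Finset.card_eq_sum_card_fiberwise (fun _ _ => Finset.mem_coe.2 (Finset.mem_univ _))]
    rw [Finset.card_univ, Fintype.card_prod, Finset.sum_const, Finset.card_univ, smul_eq_mul,
      Nat.card_eq_fintype_card (α := C)]
  have heq : ∀ s : K, (Finset.univ.filter fun p : K × C => Φ p = s).card = Nat.card C := fun s =>
    (Finset.sum_eq_sum_iff_of_le (fun s _ => hle s)).1 hsum s (Finset.mem_univ s)
  have h1 : ∑ p : K × C, ψ (t * p.2) = (Nat.card K : ℂ) * ∑ u : C, ψ (t * u) := by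
    rw [Fintype.sum_prod_type]
    simp only [Finset.sum_const, Finset.card_univ, nsmul_eq_mul, Nat.card_eq_fintype_card]
  have h2 : ∑ p : K × C, ψ (t * p.2) = ∑ p : K × C, ψ (t * Φ p) := by
    refine Finset.sum_congr rfl fun p _ => ?_
    rw [hΦ, hψ]
  rw [← h1, h2, ← Finset.sum_fiberwise (s := Finset.univ) (g := Φ), Finset.mul_sum]
  refine Finset.sum_congr rfl fun s _ => ?_
  have h3 : ∑ p ∈ Finset.univ.filter (fun p : K × C => Φ p = s), ψ (t * Φ p) =
      ∑ p ∈ Finset.univ.filter (fun p : K × C => Φ p = s), ψ (t * s) := by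
    refine Finset.sum_congr rfl fun p hp => ?_
    rw [(Finset.mem_filter.1 hp).2]
  rw [h3, Finset.sum_const, heq, nsmul_eq_mul]

end Pool.Agent.H1.LF
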