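import Pool.Agent.H1.LF.Defs

/-!
# Sums over the conjugates of the cosets `x R(x)`
-/

namespace Pool.Agent.H1.LF

open scoped Classical

variable {G : Type} [Group G] {M H : Subgroup G} {L N : G → Subgroup G}

theorem card_RR_conj [Finite G] (D : LiftData M H L N) {x c : G} (hx : x ∈ H) (hx1 : x ≠ 1)
    (hc : c * x * c⁻¹ ∈ H) : Nat.card (RR M H N (c * x * c⁻¹)) = Nat.card (RR M H N x) := by
  symm
  refine Nat.card_congr
    { toFun := fun r => ⟨c * r * c⁻¹, RR_fus D hx hx1 hc r.2⟩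
      invFun := fun r => ⟨c⁻¹ * r * c, ?_⟩
      left_inv := fun r => Subtype.ext (by simp [mul_assoc])
      right_inv := fun r => Subtype.ext (by simp [mul_assoc]) }
  have h1 : c * x * c⁻¹ ≠ 1 := fun h => hx1 (conj_eq_one_iff.1 h)
  have e : c⁻¹ * (c * x * c⁻¹) * c⁻¹⁻¹ = x := by group
  have h2 : c⁻¹ * (c * x * c⁻¹) * c⁻¹⁻¹ ∈ H := by rw [e]; exact hx
  have h3 := RR_fus D hc h1 h2 r.2
  rw [e, inv_inv] at h3
  exact h3

theorem card_conj_mem [Finite G] (D : LiftData M H L N) {x : G} (hx : x ∈ H) (hx1 : x ≠ 1) :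
    Nat.card {k : G // k⁻¹ * x * k ∈ H} = Nat.card (RR M H N x) * Nat.card M := by
  rw [← Nat.card_prod]
  symm
  refine Nat.card_congr (Equiv.ofBijective
    (fun p : RR M H N x × M => (⟨p.1 * p.2, ?_⟩ : {k : G // k⁻¹ * x * k ∈ H})) ⟨?_, ?_⟩)
  · have h1 := comm_of_mem_RR p.1.2
    have e : ((p.1 : G) * p.2)⁻¹ * x * (p.1 * p.2) = (p.2 : G)⁻¹ * x * (p.2 : G)⁻¹⁻¹ := by
      have h2 : x * (p.1 : G) = p.1 * x := h1.symm
      calc ((p.1 : G) * p.2)⁻¹ * x * (p.1 * p.2)
          = (p.2 : G)⁻¹ * (p.1 : G)⁻¹ * (x * p.1) * p.2 := by group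
        _ = (p.2 : G)⁻¹ * (p.1 : G)⁻¹ * (p.1 * x) * p.2 := by rw [h2]
        _ = _ := by group
    rw [e]
    exact D.nor _ (M.inv_mem p.2.2) x hx
  · rintro ⟨r, m⟩ ⟨r', m'⟩ h
    have h1 : (r : G) * m = r' * m' := congrArg Subtype.val h
    have h2 : (r' : G)⁻¹ * r = m' * (m : G)⁻¹ := by
      rw [inv_mul_eq_iff_eq_mul, ← mul_assoc, ← h1]
      group
    have h3 := RR_disj D ((RR M H N x).mul_mem ((RR M H N x).inv_mem r'.2) r.2)
      (by rw [h2]; exact M.mul_mem m'.2 (M.inv_mem m.2))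
    have h4 : r = r' := Subtype.ext (by rw [inv_mul_eq_one] at h3; exact h3.symm)
    subst h4
    have h5 : m = m' := Subtype.ext (mul_left_cancel h1)
    rw [h5]
  · rintro ⟨k, hk⟩
    obtain ⟨r, hr, m, hm, hkm⟩ := exists_RR_mul D hx hx1 hk
    exact ⟨(⟨r, hr⟩, ⟨m, hm⟩), Subtype.ext hkm.symm⟩

/-- Sums of class functions supported on the conjugates of the cosets `x R(x)`. -/
theorem sum_lift [Fintype G] (D : LiftData M H L N) (F : G → ℂ)
    (hF : ∀ g x : G, F (g * x * g⁻¹) = F x)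
    (h0 : ∀ g : G, (∀ x ∈ H, x ≠ 1 → ∀ r ∈ RR M H N x, ∀ k : G, g ≠ k * (x * r) * k⁻¹) →
      F g = 0) :
    ∑ g : G, F g = (Nat.card G : ℂ) * ∑ x : G, if x ∈ H ∧ x ≠ 1 then
      ((Nat.card M : ℂ) * Nat.card (RR M H N x))⁻¹ *
        ∑ r : G, if r ∈ RR M H N x then F (x * r) else 0 else 0 := by
  have hG : (Nat.card G : ℂ) ≠ 0 := by exact_mod_cast Nat.card_pos.ne'
  have hM : (Nat.card M : ℂ) ≠ 0 := by exact_mod_cast Nat.card_pos.ne'
  set c : G → ℂ := fun x => ((Nat.card M : ℂ) * Nat.card (RR M H N x))⁻¹ with hc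
  set u : G → ℂ := fun g => ∑ x : G, ∑ r : G,
    if (x ∈ H ∧ x ≠ 1) ∧ r ∈ RR M H N x ∧ x * r = g then c x else 0 with hu
  have h1 : (∑ x : G, if x ∈ H ∧ x ≠ 1 then
      ((Nat.card M : ℂ) * Nat.card (RR M H N x))⁻¹ *
        ∑ r : G, (if r ∈ RR M H N x then F (x * r) else 0) else 0) = ∑ g : G, u g * F g := by
    simp_rw [hu, Finset.sum_mul]
    rw [Finset.sum_comm]
    refine Finset.sum_congr rfl fun x _ => ?_
    rw [Finset.sum_comm]
    by_cases hx : x ∈ H ∧ x ≠ 1
    · rw [if_pos hx, Finset.mul_sum]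
      refine Finset.sum_congr rfl fun r _ => ?_
      by_cases hr : r ∈ RR M H N x
      · rw [if_pos hr, Finset.sum_eq_single (x * r)]
        · rw [if_pos ⟨hx, hr, rfl⟩]
        · intro g _ hg
          rw [if_neg (fun h => hg h.2.2.symm), zero_mul]
        · intro h
          exact absurd (Finset.mem_univ _) h
      · rw [if_neg hr, mul_zero]
        symm
        refine Finset.sum_eq_zero fun g _ => ?_
        rw [if_neg (fun h => hr h.2.1), zero_mul]
    · rw [if_neg hx]
      symm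
      refine Finset.sum_eq_zero fun r _ => Finset.sum_eq_zero fun g _ => ?_
      rw [if_neg (fun h => hx h.1), zero_mul]
  have h2 : ∀ k : G, ∑ g : G, u g * F g = ∑ g : G, u (k⁻¹ * g * k) * F g := by
    intro k
    rw [← Equiv.sum_comp (MulAut.conj k⁻¹).toEquiv]
    refine Finset.sum_congr rfl fun g _ => ?_
    have e : (MulAut.conj k⁻¹).toEquiv g = k⁻¹ * g * k := by
      simp
    rw [e]
    congr 1
    have := hF k⁻¹ g
    rw [inv_inv] at this
    exact this
  have h3 : (Nat.card G : ℂ) * ∑ g : G, u g * F g =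
      ∑ g : G, (∑ k : G, u (k⁻¹ * g * k)) * F g := by
    simp_rw [Finset.sum_mul]
    rw [Finset.sum_comm]
    have : ∑ k : G, ∑ g : G, u g * F g = ∑ k : G, ∑ g : G, u (k⁻¹ * g * k) * F g :=
      Finset.sum_congr rfl fun k _ => h2 k
    rw [← this, Finset.sum_const, Finset.card_univ, nsmul_eq_mul, Nat.card_eq_fintype_card]
  rw [h1, h3]
  refine Finset.sum_congr rfl fun g _ => ?_
  by_cases hg : ∀ x ∈ H, x ≠ 1 → ∀ r ∈ RR M H N x, ∀ k : G, g ≠ k * (x * r) * k⁻¹
  · rw [h0 g hg, mul_zero]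
  · push Not at hg
    obtain ⟨x, hx, hx1, r, hr, k, hk⟩ := hg
    have h4 : ∀ j : G, u (j⁻¹ * (x * r) * j) = if j⁻¹ * x * j ∈ H then c x else 0 := by
      intro j
      by_cases hj : j⁻¹ * x * j ∈ H
      · rw [if_pos hj]
        have hj' : j⁻¹ * x * j⁻¹⁻¹ ∈ H := by rwa [inv_inv]
        have hne : j⁻¹ * x * j ≠ 1 := by
          intro h
          apply hx1
          have : x = j * (j⁻¹ * x * j) * j⁻¹ := by group
          rw [this, h]
          group
        have hrj : j⁻¹ * r * j ∈ RR M H N (j⁻¹ * x * j) := by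
          have := RR_fus D hx hx1 hj' hr
          rwa [inv_inv] at this
        have hcj : c (j⁻¹ * x * j) = c x := by
          have := card_RR_conj D hx hx1 hj'
          rw [inv_inv] at this
          simp only [hc, this]
        simp only [hu]
        rw [Finset.sum_eq_single (j⁻¹ * x * j), Finset.sum_eq_single (j⁻¹ * r * j)]
        · rw [if_pos ⟨⟨hj, hne⟩, hrj, by group⟩, hcj]
        · intro r' _ hr'
          rw [if_neg]
          rintro ⟨-, h5, h6⟩
          apply hr'
          have h7 : j⁻¹ * x * j * r' = j⁻¹ * x * j * (j⁻¹ * r * j) := by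
            rw [h6]; group
          exact mul_left_cancel h7
        · intro h
          exact absurd (Finset.mem_univ _) h
        · intro x' _ hx'
          refine Finset.sum_eq_zero fun r' _ => ?_
          rw [if_neg]
          rintro ⟨⟨h5, h5'⟩, h6, h7⟩
          apply hx'
          have h8 : j⁻¹ * (x * r) * j⁻¹⁻¹ = x' * r' := by rw [inv_inv, h7]
          have h9 := (sep D hx h5 hr h6 h8).1
          rw [inv_inv] at h9
          exact h9.symm
        · intro h
          exact absurd (Finset.mem_univ _) h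
      · rw [if_neg hj]
        simp only [hu]
        refine Finset.sum_eq_zero fun x' _ => Finset.sum_eq_zero fun r' _ => ?_
        rw [if_neg]
        rintro ⟨⟨h5, h5'⟩, h6, h7⟩
        apply hj
        have h8 : j⁻¹ * (x * r) * j⁻¹⁻¹ = x' * r' := by rw [inv_inv, h7]
        have h9 := (sep D hx h5 hr h6 h8).1
        rw [inv_inv] at h9
        rw [h9]
        exact h5
    have h5 : ∑ j : G, u (j⁻¹ * g * j) = 1 := by
      have h6 : ∑ j : G, u (j⁻¹ * g * j) = ∑ j : G, u (j⁻¹ * (x * r) * j) := by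
        rw [← Equiv.sum_comp (Equiv.mulLeft k) (fun j => u (j⁻¹ * g * j))]
        refine Finset.sum_congr rfl fun j _ => ?_
        congr 1
        rw [hk, Equiv.coe_mulLeft]
        group
      rw [h6]
      simp_rw [h4]
      rw [← Finset.sum_filter, Finset.sum_const, nsmul_eq_mul]
      have h7 : (Finset.univ.filter fun j : G => j⁻¹ * x * j ∈ H).card
          = Nat.card (RR M H N x) * Nat.card M := by
        rw [← card_conj_mem D hx hx1, Nat.card_eq_fintype_card, Fintype.card_subtype]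
      rw [h7]
      simp only [hc]
      have hR : (Nat.card (RR M H N x) : ℂ) ≠ 0 := by exact_mod_cast Nat.card_pos.ne'
      push_cast
      field_simp
    rw [h5, one_mul]

end Pool.Agent.H1.LF
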