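import Pool.Agent.H31.Thr.T2_Vir

/-!
# The lift of class functions from a subgroup with a family of complements

`M` is a subgroup of the finite group `G`, `H` a normal subgroup of `M`. An element `x` of `H#` is
bad if its centralizer is not contained in `M`; then subgroups `L x ≥ N x` are given (in the
application: the maximal subgroup containing the centralizer of `x` and its normal Hall subgroup).
-/

namespace Pool.Agent.H1.LF

variable {G : Type} [Group G]

/-- `x` is a nontrivial element of `H` whose centralizer is not contained in `M`. -/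
def Bad (M H : Subgroup G) (x : G) : Prop :=
  x ∈ H ∧ x ≠ 1 ∧ ∃ g : G, g * x = x * g ∧ g ∉ M

/-- The local hypotheses of the lift. -/
structure LiftData (M H : Subgroup G) (L N : G → Subgroup G) : Prop where
  le : H ≤ M
  nor : ∀ m ∈ M, ∀ x ∈ H, m * x * m⁻¹ ∈ H
  fus : ∀ x ∈ H, x ≠ 1 → ∀ g : G, g * x * g⁻¹ ∈ H → ∃ m ∈ M, m * x * m⁻¹ = g * x * g⁻¹
  cent : ∀ x, Bad M H x → ∀ g : G, g * x = x * g → g ∈ L x
  NL : ∀ x, Bad M H x → N x ≤ L x
  Nnor : ∀ x, Bad M H x → ∀ l ∈ L x, ∀ n ∈ N x, l * n * l⁻¹ ∈ N x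
  dec : ∀ x, Bad M H x → ∀ l ∈ L x, ∃ n ∈ N x, ∃ e ∈ L x, e ∈ M ∧ l = n * e
  disj : ∀ x, Bad M H x → ∀ n ∈ N x, n ∈ M → n = 1
  cop : ∀ x, Bad M H x → (Nat.card (N x)).Coprime (Nat.card H)
  Lconj : ∀ x, Bad M H x → ∀ m ∈ M, ∀ g : G, g ∈ L (m * x * m⁻¹) ↔ m⁻¹ * g * m ∈ L x
  Nconj : ∀ x, Bad M H x → ∀ m ∈ M, ∀ g : G, g ∈ N (m * x * m⁻¹) ↔ m⁻¹ * g * m ∈ N x
  self : ∀ x, Bad M H x → ∀ m ∈ M, (∀ g : G, g ∈ L x ↔ m⁻¹ * g * m ∈ L x) → m ∈ L x
  uniq : ∀ x, Bad M H x → ∀ y ∈ H, y ≠ 1 → y ∈ L x → (∃ n ∈ N x, n ≠ 1 ∧ n * y = y * n) →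
    Bad M H y ∧ L y = L x ∧ N y = N x

set_option linter.unusedSectionVars false

open Classical in
/-- The group `R(x)`: the centralizer of `x` in `N x` for bad `x`, otherwise trivial. -/
noncomputable def RR (M H : Subgroup G) (N : G → Subgroup G) (x : G) : Subgroup G :=
  if Bad M H x then N x ⊓ Subgroup.centralizer {x} else ⊥

/-- `f` is the lift of the function `a` on `M`: it takes the value `a x` on the coset `x R(x)`,
for all `x ∈ H#`, it is a class function, and it is `0` outside the conjugates of these cosets. -/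
structure IsLift (M H : Subgroup G) (N : G → Subgroup G) (a : M → ℂ) (f : G → ℂ) : Prop where
  conj : ∀ g x : G, f (g * x * g⁻¹) = f x
  val : ∀ (x : M), (x : G) ∈ H → x ≠ 1 → ∀ r ∈ RR M H N x, f (x * r) = a x
  zero : ∀ g : G, (∀ x ∈ H, x ≠ 1 → ∀ r ∈ RR M H N x, ∀ k : G, g ≠ k * (x * r) * k⁻¹) → f g = 0

variable {M H : Subgroup G} {L N : G → Subgroup G}

theorem comm_of_mem_RR {x r : G} (hr : r ∈ RR M H N x) : r * x = x * r := by
  classical
  unfold RR at hr
  split at hr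
  · exact Subgroup.mem_centralizer_singleton_iff.1 hr.2
  · rw [Subgroup.mem_bot.1 hr, one_mul, mul_one]

theorem mem_N_of_mem_RR {x r : G} (hx : Bad M H x) (hr : r ∈ RR M H N x) : r ∈ N x := by
  classical
  unfold RR at hr
  rw [if_pos hx] at hr
  exact hr.1

theorem mem_RR_bad {x r : G} (hx : Bad M H x) : r ∈ RR M H N x ↔ r ∈ N x ∧ r * x = x * r := by
  classical
  unfold RR
  rw [if_pos hx, Subgroup.mem_inf, Subgroup.mem_centralizer_singleton_iff]

theorem mem_RR_good {x r : G} (hx : ¬ Bad M H x) : r ∈ RR M H N x ↔ r = 1 := by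
  classical
  unfold RR
  rw [if_neg hx, Subgroup.mem_bot]

/-- Separation of commuting parts of coprime orders. -/
theorem crt_sep {A B : ℕ} (hAB : A.Coprime B) {x r x' r' g : G} (hx : x ^ A = 1)
    (hr : r ^ B = 1) (hx' : x' ^ A = 1) (hr' : r' ^ B = 1) (hc : r * x = x * r)
    (hc' : r' * x' = x' * r') (h : g * (x * r) * g⁻¹ = x' * r') :
    g * x * g⁻¹ = x' ∧ g * r * g⁻¹ = r' := by
  obtain ⟨k, hk1, hk2⟩ := Nat.chineseRemainder hAB 1 0
  have e1 : ∀ y s : G, y ^ A = 1 → s ^ B = 1 → s * y = y * s → (y * s) ^ k = y := by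
    intro y s hy hs hc
    have hc2 : Commute y s := hc.symm
    have h1 : y ^ k = y := by
      have h3 : y ^ k = y ^ 1 := pow_eq_pow_iff_modEq.2 (hk1.of_dvd (orderOf_dvd_of_pow_eq_one hy))
      rw [h3, pow_one]
    have h2 : s ^ k = 1 := by
      have h3 : s ^ k = s ^ 0 := pow_eq_pow_iff_modEq.2 (hk2.of_dvd (orderOf_dvd_of_pow_eq_one hs))
      rw [h3, pow_zero]
    rw [hc2.mul_pow, h1, h2, mul_one]
  have h1 := e1 x r hx hr hc
  have h2 := e1 x' r' hx' hr' hc'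
  have h3 : g * x * g⁻¹ = x' := by
    rw [← h2, ← h, conj_pow, h1]
  refine ⟨h3, ?_⟩
  have h4 : g * (x * r) * g⁻¹ = (g * x * g⁻¹) * (g * r * g⁻¹) := by group
  rw [h4, h3] at h
  exact mul_left_cancel h

theorem Bad.conj (D : LiftData M H L N) {x m : G} (hx : Bad M H x) (hm : m ∈ M) :
    Bad M H (m * x * m⁻¹) := by
  obtain ⟨h1, h2, g, hg, hgM⟩ := hx
  refine ⟨D.nor m hm x h1, ?_, m * g * m⁻¹, ?_, ?_⟩
  · intro h
    exact h2 (conj_eq_one_iff.1 h)
  · have e : m * g * m⁻¹ * (m * x * m⁻¹) = m * (g * x) * m⁻¹ := by group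
    rw [e, hg]
    group
  · intro h
    apply hgM
    have e : g = m⁻¹ * (m * g * m⁻¹) * m := by group
    rw [e]
    exact M.mul_mem (M.mul_mem (M.inv_mem hm) h) hm

variable [Finite G]

theorem pow_card_H {x : G} (hx : x ∈ H) : x ^ Nat.card H = 1 := by
  have h := congrArg (fun y : H => (y : G)) (pow_card_eq_one' (x := (⟨x, hx⟩ : H)))
  exact h

/-- a number prime to `|H|` which kills `R(x)` -/
theorem exists_kill (D : LiftData M H L N) (x x' : G) :
    ∃ B : ℕ, (Nat.card H).Coprime B ∧ (∀ r ∈ RR M H N x, r ^ B = 1) ∧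
      (∀ r ∈ RR M H N x', r ^ B = 1) := by
  have key : ∀ y : G, ∃ B : ℕ, (Nat.card H).Coprime B ∧ ∀ r ∈ RR M H N y, r ^ B = 1 := by
    intro y
    by_cases hy : Bad M H y
    · refine ⟨Nat.card (N y), (D.cop y hy).symm, fun r hr => ?_⟩
      exact pow_card_H (mem_N_of_mem_RR hy hr)
    · refine ⟨1, Nat.coprime_one_right _, fun r hr => ?_⟩
      rw [(mem_RR_good hy).1 hr, one_pow]
  obtain ⟨B, h1, h2⟩ := key x
  obtain ⟨B', h1', h2'⟩ := key x'
  refine ⟨B * B', Nat.Coprime.mul_right h1 h1', fun r hr => ?_, fun r hr => ?_⟩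
  · rw [pow_mul, h2 r hr, one_pow]
  · rw [mul_comm, pow_mul, h2' r hr, one_pow]

/-- (E3): conjugate elements of the cosets `x R(x)`, `x' R(x')` come from a simultaneous
conjugation of the parts. -/
theorem sep (D : LiftData M H L N) {x x' r r' g : G} (hx : x ∈ H) (hx' : x' ∈ H)
    (hr : r ∈ RR M H N x) (hr' : r' ∈ RR M H N x') (h : g * (x * r) * g⁻¹ = x' * r') :
    g * x * g⁻¹ = x' ∧ g * r * g⁻¹ = r' := by
  obtain ⟨B, hB, h1, h2⟩ := exists_kill D x x'
  exact crt_sep hB (pow_card_H hx) (h1 r hr) (pow_card_H hx') (h2 r' hr') (comm_of_mem_RR hr)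
    (comm_of_mem_RR hr') h

/-- centralizers of bad elements normalise `R(x)` -/
theorem RR_cent (D : LiftData M H L N) {x r z : G} (hr : r ∈ RR M H N x) (hz : z * x = x * z) :
    z * r * z⁻¹ ∈ RR M H N x := by
  by_cases hb : Bad M H x
  · rw [mem_RR_bad hb] at hr ⊢
    refine ⟨D.Nnor x hb z (D.cent x hb z hz) r hr.1, ?_⟩
    have hz' : z⁻¹ * x = x * z⁻¹ := by
      rw [inv_mul_eq_iff_eq_mul, ← mul_assoc, hz, mul_assoc, mul_inv_cancel, mul_one]
    calc z * r * z⁻¹ * x = z * r * (z⁻¹ * x) := by group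
      _ = z * (r * x) * z⁻¹ := by rw [hz']; group
      _ = (z * x) * r * z⁻¹ := by rw [hr.2]; group
      _ = x * (z * r * z⁻¹) := by rw [hz]; group
  · rw [mem_RR_good hb] at hr ⊢
    rw [hr]
    group

theorem RR_conj (D : LiftData M H L N) {x r m : G} (hr : r ∈ RR M H N x) (hm : m ∈ M) :
    m * r * m⁻¹ ∈ RR M H N (m * x * m⁻¹) := by
  by_cases hb : Bad M H x
  · rw [mem_RR_bad (hb.conj D hm)]
    rw [mem_RR_bad hb] at hr
    constructor
    · rw [D.Nconj x hb m hm]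
      have e : m⁻¹ * (m * r * m⁻¹) * m = r := by group
      rw [e]
      exact hr.1
    · have e : m * r * m⁻¹ * (m * x * m⁻¹) = m * (r * x) * m⁻¹ := by group
      rw [e, hr.2]
      group
  · have hb' : ¬ Bad M H (m * x * m⁻¹) := by
      intro h
      have h1 := h.conj D (M.inv_mem hm)
      have e : m⁻¹ * (m * x * m⁻¹) * m⁻¹⁻¹ = x := by group
      rw [e] at h1
      exact hb h1
    rw [mem_RR_good hb']
    rw [mem_RR_good hb] at hr
    rw [hr]
    group

/-- conjugation in `G` between elements of `H#` respects the groups `R(x)` -/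
theorem RR_fus (D : LiftData M H L N) {x r c : G} (hx : x ∈ H) (hx1 : x ≠ 1)
    (hc : c * x * c⁻¹ ∈ H) (hr : r ∈ RR M H N x) : c * r * c⁻¹ ∈ RR M H N (c * x * c⁻¹) := by
  obtain ⟨m, hm, hmx⟩ := D.fus x hx hx1 c hc
  have hz : (m⁻¹ * c) * x = x * (m⁻¹ * c) := by
    have h1 : c * x = m * x * m⁻¹ * c := by rw [hmx]; group
    rw [mul_assoc, h1]
    group
  have h2 := RR_conj D (RR_cent D hr hz) hm
  rw [hmx] at h2
  have e : m * (m⁻¹ * c * r * (m⁻¹ * c)⁻¹) * m⁻¹ = c * r * c⁻¹ := by group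
  rw [e] at h2
  exact h2

/-- elements of `L x` centralising an element `t` of `L x ∩ H` -/
theorem dec_cent (D : LiftData M H L N) {x t c : G} (hb : Bad M H x) (ht : t ∈ L x) (htH : t ∈ H)
    (hc : c ∈ L x) (hct : c * t = t * c) :
    ∃ n ∈ N x, n * t = t * n ∧ ∃ e ∈ M, e * t = t * e ∧ c = n * e := by
  obtain ⟨n, hn, e, he, heM, hne⟩ := D.dec x hb c hc
  have h1 : e * t * e⁻¹ * t⁻¹ = n⁻¹ * (t * n * t⁻¹) := by
    have h2 : n * e * t = t * (n * e) := by rw [← hne, hct]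
    have h3 : e * t = n⁻¹ * t * n * e := by
      have : e * t = n⁻¹ * (n * e * t) := by group
      rw [this, h2]
      group
    rw [h3]
    group
  have h2 : e * t * e⁻¹ * t⁻¹ ∈ N x := by
    rw [h1]
    exact (N x).mul_mem ((N x).inv_mem hn) (D.Nnor x hb t ht n hn)
  have h3 : e * t * e⁻¹ * t⁻¹ ∈ M :=
    M.mul_mem (M.mul_mem (M.mul_mem heM (D.le htH)) (M.inv_mem heM)) (M.inv_mem (D.le htH))
  have h4 := D.disj x hb _ h2 h3
  have h5 : e * t = t * e := by
    have : e * t * e⁻¹ = t := by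
      rw [mul_inv_eq_one] at h4
      exact h4
    rw [mul_inv_eq_iff_eq_mul] at this
    exact this
  refine ⟨n, hn, ?_, e, heM, h5, hne⟩
  have h6 : n * e * t = t * (n * e) := by rw [← hne, hct]
  rw [mul_assoc, h5] at h6
  have h7 : (n * t) * e = (t * n) * e := by
    rw [mul_assoc, h6]
    group
  exact mul_right_cancel h7

/-- `{k | k⁻¹ x k ∈ H} = R(x) M` -/
theorem exists_RR_mul (D : LiftData M H L N) {x k : G} (hx : x ∈ H) (hx1 : x ≠ 1)
    (hk : k⁻¹ * x * k ∈ H) : ∃ r ∈ RR M H N x, ∃ m ∈ M, k = r * m := by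
  have hk' : k⁻¹ * x * k⁻¹⁻¹ ∈ H := by rwa [inv_inv]
  obtain ⟨m, hm, hmx⟩ := D.fus x hx hx1 k⁻¹ hk'
  have hz : (k * m) * x = x * (k * m) := by
    have h1 : m * x = k⁻¹ * x * k * m := by
      rw [inv_inv] at hmx
      rw [← hmx]
      group
    rw [mul_assoc, h1]
    group
  by_cases hb : Bad M H x
  · have hxL : x ∈ L x := D.cent x hb x rfl
    obtain ⟨n, hn, hnx, e, he, -, hne⟩ := dec_cent D hb hxL hx (D.cent x hb _ hz) hz
    refine ⟨n, (mem_RR_bad hb).2 ⟨hn, hnx⟩, e * m⁻¹, M.mul_mem he (M.inv_mem hm), ?_⟩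
    rw [← mul_assoc, ← hne]
    group
  · refine ⟨1, (mem_RR_good hb).2 rfl, k, ?_, (one_mul k).symm⟩
    by_contra hkM
    apply hb
    refine ⟨hx, hx1, k * m, hz, fun h => hkM ?_⟩
    have e : k = k * m * m⁻¹ := by group
    rw [e]
    exact M.mul_mem h (M.inv_mem hm)

theorem RR_disj (D : LiftData M H L N) {x r : G} (hr : r ∈ RR M H N x) (hM : r ∈ M) : r = 1 := by
  by_cases hb : Bad M H x
  · exact D.disj x hb r (mem_N_of_mem_RR hb hr) hM
  · exact (mem_RR_good hb).1 hr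

end Pool.Agent.H1.LF
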