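import Pool.Agent.H1.LF.Count

/-!
# Inner products of lifts, existence of lifts
-/

namespace Pool.Agent.H1.LF

open Pool.Agent.H7.HB Pool.Agent.H7.Artin Pool.Agent.H72.Sol

open scoped Classical

variable {G : Type} [Group G] {M H : Subgroup G} {L N : G → Subgroup G} {a a' : M → ℂ}
  {f f' : G → ℂ}

theorem Bad.exists_n [Finite G] (D : LiftData M H L N) {x : G} (hb : Bad M H x) :
    ∃ n ∈ N x, n ≠ 1 ∧ n * x = x * n := by
  obtain ⟨g, hg, hgM⟩ := hb.2.2
  obtain ⟨n, hn, hnx, e, he, -, hne⟩ := dec_cent D hb (D.cent x hb x rfl) hb.1 (D.cent x hb g hg) hg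
  refine ⟨n, hn, ?_, hnx⟩
  rintro rfl
  apply hgM
  rw [hne, one_mul]
  exact he

theorem Bad.inv [Finite G] (D : LiftData M H L N) {x : G} (hb : Bad M H x) :
    Bad M H x⁻¹ ∧ L x⁻¹ = L x ∧ N x⁻¹ = N x := by
  obtain ⟨n, hn, hn1, hnx⟩ := hb.exists_n D
  refine D.uniq x hb x⁻¹ (H.inv_mem hb.1) (fun h => hb.2.1 (inv_eq_one.1 h))
    ((L x).inv_mem (D.cent x hb x rfl)) ⟨n, hn, hn1, ?_⟩
  rw [eq_inv_mul_iff_mul_eq, ← mul_assoc, ← hnx]
  group

theorem RR_inv [Finite G] (D : LiftData M H L N) (x : G) : RR M H N x⁻¹ = RR M H N x := by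
  have hc : ∀ r : G, r * x⁻¹ = x⁻¹ * r ↔ r * x = x * r := by
    intro r
    constructor
    · intro h
      have : r * x = x * (x⁻¹ * r) * x := by group
      rw [this, ← h]
      group
    · intro h
      have : r * x⁻¹ = x⁻¹ * (x * r) * x⁻¹ := by group
      rw [this, ← h]
      group
  by_cases hb : Bad M H x
  · obtain ⟨h1, -, h2⟩ := hb.inv D
    ext r
    rw [mem_RR_bad hb, mem_RR_bad h1, h2, hc]
  · have hb' : ¬ Bad M H x⁻¹ := by
      intro h
      have := (h.inv D).1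
      rw [inv_inv] at this
      exact hb this
    ext r
    rw [mem_RR_good hb, mem_RR_good hb']

theorem IsLift.ip (D : LiftData M H L N) [Fintype G] (hf : IsLift M H N a f) {φ : G → ℂ}
    (hφ : ∀ g x : G, φ (g * x * g⁻¹) = φ x) :
    ipF f φ = ∑ x : M, if (x : G) ∈ H ∧ x ≠ 1 then
      ((Nat.card M : ℂ) * Nat.card (RR M H N x))⁻¹ *
        ∑ r : RR M H N x, a x * φ ((x : G) * r)⁻¹ else 0 := by
  have hG : (Nat.card G : ℂ) ≠ 0 := by exact_mod_cast Nat.card_pos.ne'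
  rw [ipF_eq]
  unfold Pool.Agent.H7.Artin.ip
  have h1 := sum_lift D (fun g => f g * φ g⁻¹) (fun g x => by
    have e : (g * x * g⁻¹)⁻¹ = g * x⁻¹ * g⁻¹ := by group
    rw [e, hf.conj, hφ]) (fun g hg => by rw [hf.zero g hg, zero_mul])
  rw [h1, ← mul_assoc, inv_mul_cancel₀ hG, one_mul]
  have h2 : ∀ x : G, (if x ∈ H ∧ x ≠ 1 then ((Nat.card M : ℂ) * Nat.card (RR M H N x))⁻¹ *
      ∑ r : G, (if r ∈ RR M H N x then f (x * r) * φ (x * r)⁻¹ else 0) else 0) =
      if h : x ∈ M then (if x ∈ H ∧ x ≠ 1 then ((Nat.card M : ℂ) * Nat.card (RR M H N x))⁻¹ *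
      ∑ r : RR M H N x, a ⟨x, h⟩ * φ (x * r)⁻¹ else 0) else 0 := by
    intro x
    by_cases hx : x ∈ H ∧ x ≠ 1
    · rw [if_pos hx, dif_pos (D.le hx.1), if_pos hx]
      congr 1
      rw [← Finset.sum_filter]
      refine Finset.sum_bij' (fun r hr => ⟨r, (Finset.mem_filter.1 hr).2⟩) (fun r _ => r.1)
        (fun _ _ => Finset.mem_univ _)
        (fun r _ => Finset.mem_filter.2 ⟨Finset.mem_univ _, r.2⟩) (fun _ _ => rfl) (fun _ _ => rfl)
        ?_
      intro r hr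
      congr 1
      exact hf.val ⟨x, D.le hx.1⟩ hx.1 (fun h => hx.2 (congrArg Subtype.val h)) r
        (Finset.mem_filter.1 hr).2
    · rw [if_neg hx]
      by_cases h : x ∈ M
      · rw [dif_pos h, if_neg hx]
      · rw [dif_neg h]
  simp_rw [h2]
  symm
  refine (Fintype.sum_of_injective (fun x : M => (x : G)) Subtype.val_injective _ _ ?_ ?_)
  · intro x hx
    refine dif_neg fun h => hx ⟨⟨x, h⟩, rfl⟩
  · intro x
    rw [dif_pos x.2]
    have e : ((x : G) ∈ H ∧ x ≠ 1) ↔ ((x : G) ∈ H ∧ (x : G) ≠ 1) := by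
      constructor
      · rintro ⟨h1, h2⟩
        exact ⟨h1, fun h => h2 (Subtype.ext h)⟩
      · rintro ⟨h1, h2⟩
        exact ⟨h1, fun h => h2 (congrArg Subtype.val h)⟩
    by_cases h : (x : G) ∈ H ∧ x ≠ 1
    · rw [if_pos h, if_pos (e.1 h)]
    · rw [if_neg h, if_neg (fun h' => h (e.2 h'))]

/-- The lift is an isometry. -/
theorem IsLift.ip_lift (D : LiftData M H L N) [Finite G] (hf : IsLift M H N a f)
    (hf' : IsLift M H N a' f') (ha : ∀ x : M, ((x : G) ∉ H ∨ x = 1) → a x = 0) :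
    ipF f f' = ipF a a' := by
  let _ : Fintype G := Fintype.ofFinite G
  rw [hf.ip D hf'.conj, ipF_eq]
  unfold Pool.Agent.H7.Artin.ip
  rw [Finset.mul_sum]
  refine Finset.sum_congr rfl fun x _ => ?_
  by_cases hx : (x : G) ∈ H ∧ x ≠ 1
  · rw [if_pos hx]
    have h1 : ∀ r : RR M H N x, a x * f' ((x : G) * r)⁻¹ = a x * a' x⁻¹ := by
      intro r
      congr 1
      have h2 : (r : G)⁻¹ ∈ RR M H N ((x⁻¹ : M) : G) := by
        rw [Subgroup.coe_inv, RR_inv D]
        exact (RR M H N x).inv_mem r.2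
      have h3 := hf'.val x⁻¹ (by rw [Subgroup.coe_inv]; exact H.inv_mem hx.1)
        (fun h => hx.2 (inv_eq_one.1 h)) _ h2
      rw [← h3]
      congr 1
      rw [← comm_of_mem_RR r.2, mul_inv_rev, Subgroup.coe_inv]
    simp_rw [h1]
    rw [Finset.sum_const, Finset.card_univ, nsmul_eq_mul, ← Nat.card_eq_fintype_card]
    have hR : (Nat.card (RR M H N x) : ℂ) ≠ 0 := by exact_mod_cast Nat.card_pos.ne'
    have hM : (Nat.card M : ℂ) ≠ 0 := by exact_mod_cast Nat.card_pos.ne'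
    field_simp
  · rw [if_neg hx, ha x (by tauto)]
    ring

/-- Every class function on `M` which vanishes off `H#` has a lift. -/
theorem exists_lift (D : LiftData M H L N) [Finite G] (a : M → ℂ)
    (hc : ∀ m x : M, a (m * x * m⁻¹) = a x) : ∃ f : G → ℂ, IsLift M H N a f := by
  let P : G → M → Prop := fun g x => (x : G) ∈ H ∧ x ≠ 1 ∧ ∃ r ∈ RR M H N x, ∃ k : G,
    g = k * (x * r) * k⁻¹
  have huniq : ∀ g x y, P g x → P g y → a x = a y := by
    rintro g x y ⟨hx, hx1, r, hr, k, hk⟩ ⟨hy, hy1, s, hs, j, hj⟩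
    have h1 : (j⁻¹ * k) * (x * r) * (j⁻¹ * k)⁻¹ = y * s := by
      have : (j⁻¹ * k) * (x * r) * (j⁻¹ * k)⁻¹ = j⁻¹ * (k * (x * r) * k⁻¹) * j := by group
      rw [this, ← hk, hj]
      group
    have h2 := (sep D hx hy hr hs h1).1
    obtain ⟨m, hm, hmx⟩ := D.fus x hx (fun h => hx1 (Subtype.ext h)) (j⁻¹ * k) (by rw [h2]; exact hy)
    have h3 : y = ⟨m, hm⟩ * x * ⟨m, hm⟩⁻¹ := Subtype.ext (by
      rw [← h2, ← hmx]
      rfl)
    rw [h3, hc]
  let f : G → ℂ := fun g => if h : ∃ x, P g x then a (Classical.choose h) else 0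
  have hfP : ∀ g x, P g x → f g = a x := by
    intro g x hx
    have h : ∃ x, P g x := ⟨x, hx⟩
    change (if h : ∃ x, P g x then a (Classical.choose h) else 0) = a x
    rw [dif_pos h]
    exact huniq g _ _ (Classical.choose_spec h) hx
  refine ⟨f, ?_, ?_, ?_⟩
  · intro g x
    by_cases h : ∃ y, P x y
    · obtain ⟨y, hy⟩ := h
      have hy' : P (g * x * g⁻¹) y := by
        obtain ⟨h1, h2, r, hr, k, hk⟩ := hy
        refine ⟨h1, h2, r, hr, g * k, ?_⟩
        rw [hk]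
        group
      rw [hfP _ _ hy, hfP _ _ hy']
    · have h' : ¬ ∃ y, P (g * x * g⁻¹) y := by
        rintro ⟨y, h1, h2, r, hr, k, hk⟩
        apply h
        refine ⟨y, h1, h2, r, hr, g⁻¹ * k, ?_⟩
        have : x = g⁻¹ * (g * x * g⁻¹) * g := by group
        rw [this, hk]
        group
      change (if h : ∃ y, P (g * x * g⁻¹) y then a (Classical.choose h) else 0) =
        (if h : ∃ y, P x y then a (Classical.choose h) else 0)
      rw [dif_neg h, dif_neg h']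
  · intro x hx hx1 r hr
    exact hfP _ _ ⟨hx, hx1, r, hr, 1, by group⟩
  · intro g hg
    change (if h : ∃ y, P g y then a (Classical.choose h) else 0) = 0
    rw [dif_neg]
    rintro ⟨y, h1, h2, r, hr, k, hk⟩
    exact hg y h1 (fun h => h2 (Subtype.ext h)) r hr k hk

end Pool.Agent.H1.LF
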