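import Pool.Agent.H1.LF.Vir
import Pool.Agent.H1.LF.Card

/-!
# The lift: all results

* `LiftData`, `RR`, `IsLift` : definitions (`Defs`)
* `sep`, `card_cent`, `card_conj`, `exists_lift`
* `IsLift.ip`, `IsLift.ip_lift`, `IsLift.vir`
-/
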