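import Pool.Agent.H1.LF.Ip
import Pool.Agent.H1.LF.Coset

/-!
# Lifts of virtual characters are virtual characters
-/

namespace Pool.Agent.H1.LF

open Pool.Agent.H7.HB Pool.Agent.H7.Artin Pool.Agent.H72.Sol Pool.Agent.H31.Thr

open scoped Classical

variable {G : Type} [Group G] {M H : Subgroup G} {L N : G → Subgroup G} {a : M → ℂ}
  {f : G → ℂ}

/-- mean over the coset `x R(x)` minus the value at `x` -/
noncomputable def dev [Fintype G] (M H : Subgroup G) (N : G → Subgroup G) (ψ : G → ℂ) (x : G) :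
    ℂ :=
  (Nat.card (RR M H N x) : ℂ)⁻¹ * ∑ r : RR M H N x, ψ (x * r) - ψ x

theorem sum_triv [Fintype G] (K : Subgroup G) (hK : ∀ r ∈ K, r = 1) (ψ : G → ℂ) (x : G) :
    ∑ r : K, ψ (x * r) = (Nat.card K : ℂ) * ψ x := by
  have h1 : ∀ r : K, ψ (x * r) = ψ x := by
    intro r
    rw [hK r r.2, mul_one]
  simp_rw [h1]
  rw [Finset.sum_const, Finset.card_univ, nsmul_eq_mul, Nat.card_eq_fintype_card]

theorem card_ne_zero' [Finite G] (K : Subgroup G) : (Nat.card K : ℂ) ≠ 0 := by
  exact_mod_cast Nat.card_pos.ne'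

theorem dev_good [Fintype G] (ψ : G → ℂ) {x : G} (hx : ¬ Bad M H x) : dev M H N ψ x = 0 := by
  unfold dev
  rw [sum_triv _ (fun r hr => (mem_RR_good hx).1 hr), ← mul_assoc,
    inv_mul_cancel₀ (card_ne_zero' _), one_mul, sub_self]

theorem dev_conj [Fintype G] (D : LiftData M H L N) {ψ : G → ℂ}
    (hψ : ∀ g x : G, ψ (g * x * g⁻¹) = ψ x) {x c : G} (hx : x ∈ H) (hx1 : x ≠ 1)
    (hc : c * x * c⁻¹ ∈ H) : dev M H N ψ (c * x * c⁻¹) = dev M H N ψ x := by
  have h1 : c * x * c⁻¹ ≠ 1 := fun h => hx1 (conj_eq_one_iff.1 h)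
  have e : c⁻¹ * (c * x * c⁻¹) * c⁻¹⁻¹ = x := by group
  have h2 : c⁻¹ * (c * x * c⁻¹) * c⁻¹⁻¹ ∈ H := by rw [e]; exact hx
  unfold dev
  rw [card_RR_conj D hx hx1 hc, hψ]
  congr 2
  symm
  refine Finset.sum_bij' (fun r _ => ⟨c * r * c⁻¹, RR_fus D hx hx1 hc r.2⟩)
    (fun r _ => ⟨c⁻¹ * r * c, by
      have h3 := RR_fus D hc h1 h2 r.2
      rw [e, inv_inv] at h3
      exact h3⟩)
    (fun _ _ => Finset.mem_univ _) (fun _ _ => Finset.mem_univ _)
    (fun r _ => Subtype.ext (by simp [mul_assoc])) (fun r _ => Subtype.ext (by simp [mul_assoc])) ?_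
  intro r _
  have e2 : c * x * c⁻¹ * (c * r * c⁻¹) = c * (x * r) * c⁻¹ := by group
  rw [e2, hψ]

/-- the projection of `L x` onto `L x ∩ M` with kernel `N x` -/
theorem exists_proj (D : LiftData M H L N) {x : G} (hb : Bad M H x) :
    ∃ π : L x →* (L x ⊓ M : Subgroup G), ∀ (e : (L x ⊓ M : Subgroup G)) (n : N x),
      π (⟨e, (Subgroup.mem_inf.1 e.2).1⟩ * ⟨n, D.NL x hb n.2⟩) = e := by
  let N' : Subgroup (L x) := (N x).subgroupOf (L x)
  have hN' : N'.Normal := ⟨fun n hn l => by
    rw [Subgroup.mem_subgroupOf] at hn ⊢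
    exact D.Nnor x hb l l.2 n hn⟩
  let j : (L x ⊓ M : Subgroup G) →* L x ⧸ N' :=
    (QuotientGroup.mk' N').comp (Subgroup.inclusion inf_le_left)
  have hj1 : Function.Injective j := by
    rw [injective_iff_map_eq_one]
    intro e he
    have h1 : Subgroup.inclusion inf_le_left e ∈ N' := (QuotientGroup.eq_one_iff _).1 he
    rw [Subgroup.mem_subgroupOf] at h1
    exact Subtype.ext (D.disj x hb e h1 (Subgroup.mem_inf.1 e.2).2)
  have hj2 : Function.Surjective j := by
    intro q
    obtain ⟨l, rfl⟩ := QuotientGroup.mk'_surjective N' q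
    obtain ⟨n, hn, e, he, heM, hne⟩ := D.dec x hb l l.2
    refine ⟨⟨e, Subgroup.mem_inf.2 ⟨he, heM⟩⟩, ?_⟩
    change QuotientGroup.mk' N' _ = _
    rw [QuotientGroup.mk'_apply, QuotientGroup.mk'_apply, QuotientGroup.eq, Subgroup.mem_subgroupOf]
    change e⁻¹ * (l : G) ∈ N x
    have h2 := D.Nnor x hb e⁻¹ ((L x).inv_mem he) n hn
    rw [inv_inv] at h2
    rw [hne]
    have : e⁻¹ * (n * e) = e⁻¹ * n * e := by group
    rw [this]
    exact h2
  let J : (L x ⊓ M : Subgroup G) ≃* L x ⧸ N' := MulEquiv.ofBijective j ⟨hj1, hj2⟩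
  refine ⟨J.symm.toMonoidHom.comp (QuotientGroup.mk' N'), fun e n => ?_⟩
  change J.symm (QuotientGroup.mk' N' _) = e
  rw [MulEquiv.symm_apply_eq]
  change QuotientGroup.mk' N' _ = j e
  change _ = QuotientGroup.mk' N' (Subgroup.inclusion inf_le_left e)
  rw [QuotientGroup.mk'_apply, QuotientGroup.mk'_apply, eq_comm, QuotientGroup.eq,
    Subgroup.mem_subgroupOf]
  change (e : G)⁻¹ * ((e : G) * n) ∈ N x
  rw [inv_mul_cancel_left]
  exact n.2

/-- `(e, n) ↦ e n` is a bijection from `(L x ∩ M) × N x` to `L x` -/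
theorem bij_mul (D : LiftData M H L N) {x : G} (hb : Bad M H x) : Function.Bijective
    (fun p : (L x ⊓ M : Subgroup G) × N x =>
      ((⟨p.1, (Subgroup.mem_inf.1 p.1.2).1⟩ : L x) * ⟨p.2, D.NL x hb p.2.2⟩ : L x)) := by
  constructor
  · rintro ⟨e, n⟩ ⟨e', n'⟩ h
    have h1 : (e : G) * n = e' * n' := congrArg Subtype.val h
    have h2 : (n : G) * (n' : G)⁻¹ = (e : G)⁻¹ * e' := by
      rw [mul_inv_eq_iff_eq_mul, mul_assoc, ← h1]
      group
    have h3 := D.disj x hb _ ((N x).mul_mem n.2 ((N x).inv_mem n'.2)) (by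
      rw [h2]
      exact M.mul_mem (M.inv_mem (Subgroup.mem_inf.1 e.2).2) (Subgroup.mem_inf.1 e'.2).2)
    have h4 : n = n' := Subtype.ext (mul_inv_eq_one.1 h3)
    subst h4
    have h5 : e = e' := Subtype.ext (mul_right_cancel h1)
    rw [h5]
  · intro l
    obtain ⟨n, hn, e, he, heM, hne⟩ := D.dec x hb l l.2
    have h2 := D.Nnor x hb e⁻¹ ((L x).inv_mem he) n hn
    refine ⟨(⟨e, Subgroup.mem_inf.2 ⟨he, heM⟩⟩, ⟨_, h2⟩), Subtype.ext ?_⟩
    change e * (e⁻¹ * n * e⁻¹⁻¹) = (l : G)
    rw [hne]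
    group

/-- the contribution of one group `L x₀` is an integral multiple of `|L x₀ ∩ M|` -/
theorem int_one [Fintype G] (D : LiftData M H L N) (hac : ∀ m x : M, a (m * x * m⁻¹) = a x)
    (hav : Vir a) (ha : ∀ x : M, ((x : G) ∉ H ∨ x = 1) → a x = 0) {V : Type} [AddCommGroup V]
    [Module ℂ V] [FiniteDimensional ℂ V] (ρ : Representation ℂ G V) {x₀ : G}
    (hb : Bad M H x₀) : ∃ z : ℤ, (∑ x : G, if h : Bad M H x ∧ L x = L x₀ then
      a ⟨x, D.le h.1.1⟩ * dev M H N (fun g => ρ.character g⁻¹) x else 0) =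
        (Nat.card (L x₀ ⊓ M : Subgroup G) : ℂ) * z := by
  set ψ : G → ℂ := fun g => ρ.character g⁻¹ with hψdef
  have hψ : ∀ g x : G, ψ (g * x * g⁻¹) = ψ x := by
    intro g x
    have e : (g * x * g⁻¹)⁻¹ = g * x⁻¹ * g⁻¹ := by group
    simp only [hψdef, e]
    exact ρ.char_conj x⁻¹ g
  obtain ⟨π, hπ⟩ := exists_proj D hb
  let E : Subgroup G := L x₀ ⊓ M
  let θ : E → ℂ := fun e => a (Subgroup.inclusion inf_le_right e)
  have hθ : Vir θ := Vir.comp hac hav (Subgroup.inclusion inf_le_right)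
  have hθc : ∀ g x : E, θ (g * x * g⁻¹) = θ x := by
    intro g x
    change a (Subgroup.inclusion inf_le_right (g * x * g⁻¹)) = a (Subgroup.inclusion inf_le_right x)
    rw [map_mul, map_mul, map_inv]
    exact hac _ _
  have hθπ : Vir (fun l => θ (π l)) := Vir.comp hθc hθ π
  obtain ⟨z1, hz1⟩ := hθπ V (ρ.comp (L x₀).subtype)
  obtain ⟨z2, hz2⟩ := hθ V (ρ.comp E.subtype)
  -- the two pairings
  have p1 : ipF (fun l => θ (π l)) (Representation.character (ρ.comp (L x₀).subtype)) =
      (Nat.card (L x₀) : ℂ)⁻¹ * ∑ l : L x₀, θ (π l) * ψ l := by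
    rw [ipF_eq]
    rfl
  have p2 : ipF θ (Representation.character (ρ.comp E.subtype)) =
      (Nat.card E : ℂ)⁻¹ * ∑ e : E, θ e * ψ e := by
    rw [ipF_eq]
    rfl
  have hcard : (Nat.card (L x₀) : ℂ) = Nat.card E * Nat.card (N x₀) := by
    have := Nat.card_congr (Equiv.ofBijective _ (bij_mul D hb))
    rw [Nat.card_prod] at this
    exact_mod_cast this.symm
  let dt : E → ℂ := fun e => if Bad M H e ∧ L e = L x₀ then dev M H N ψ e else 0
  have hEL : ∀ e : E, (e : G) ∈ L x₀ := fun e => (Subgroup.mem_inf.1 e.2).1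
  have hkey : ∀ e : E, θ e * ∑ n : N x₀, ψ (e * n) =
      (Nat.card (N x₀) : ℂ) * (θ e * (ψ e + dt e)) := by
    intro e
    by_cases he : (e : G) ∈ H ∧ (e : G) ≠ 1
    · have hnor : ∀ n ∈ N x₀, (e : G)⁻¹ * n * e ∈ N x₀ := by
        intro n hn
        have := D.Nnor x₀ hb (e : G)⁻¹ ((L x₀).inv_mem (hEL e)) n hn
        rwa [inv_inv] at this
      have h1 := coset_sum (N x₀) (e : G) hnor (pow_card_H he.1) (D.cop x₀ hb).symm ψ hψ
      by_cases hn : ∃ n ∈ N x₀, n ≠ 1 ∧ n * (e : G) = e * n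
      · obtain ⟨b1, b2, b3⟩ := D.uniq x₀ hb e he.1 he.2 (hEL e) hn
        have h2 : dt e = dev M H N ψ e := if_pos ⟨b1, b2⟩
        have h3 : (N x₀ ⊓ Subgroup.centralizer {(e : G)} : Subgroup G) = RR M H N e := by
          unfold RR
          rw [if_pos b1, b3]
        rw [h3] at h1
        rw [h2]
        unfold dev
        have hR := card_ne_zero' (RR M H N (e : G))
        have h4 : ∑ n : N x₀, ψ (e * n) = (Nat.card (RR M H N (e : G)) : ℂ)⁻¹ *
            ((Nat.card (N x₀) : ℂ) * ∑ r : RR M H N (e : G), ψ (e * r)) := by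
          rw [← h1, ← mul_assoc, inv_mul_cancel₀ hR, one_mul]
        rw [h4]
        ring
      · have h2 : dt e = 0 := by
          refine if_neg ?_
          rintro ⟨b1, b2⟩
          obtain ⟨g, hg, hgM⟩ := b1.2.2
          have hgL : g ∈ L x₀ := by
            rw [← b2]
            exact D.cent e b1 g hg
          obtain ⟨n, hnN, hne, m, hm, -, hgm⟩ := dec_cent D hb (hEL e) he.1 hgL hg
          apply hgM
          have : n = 1 := by
            by_contra h
            exact hn ⟨n, hnN, h, hne⟩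
          rw [hgm, this, one_mul]
          exact hm
        have h3 := sum_triv (N x₀ ⊓ Subgroup.centralizer {(e : G)} : Subgroup G) (fun r hr => by
          by_contra h
          exact hn ⟨r, (Subgroup.mem_inf.1 hr).1, h,
            Subgroup.mem_centralizer_singleton_iff.1 (Subgroup.mem_inf.1 hr).2⟩) ψ (e : G)
        rw [h3] at h1
        have h4 : ∑ n : N x₀, ψ (e * n) = (Nat.card (N x₀) : ℂ) * ψ e := by
          have hR := card_ne_zero' (N x₀ ⊓ Subgroup.centralizer {(e : G)} : Subgroup G)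
          apply mul_left_cancel₀ hR
          rw [h1]
          ring
        rw [h4, h2]
        ring
    · have h0 : θ e = 0 := by
        apply ha
        by_cases h : (e : G) ∈ H
        · right
          have : (e : G) = 1 := by
            by_contra h'
            exact he ⟨h, h'⟩
          exact Subtype.ext this
        · left
          exact h
      rw [h0]
      ring
  have h2 : ∑ l : L x₀, θ (π l) * ψ l =
      (Nat.card (N x₀) : ℂ) * ∑ e : E, θ e * (ψ e + dt e) := by
    rw [← Equiv.sum_comp (Equiv.ofBijective _ (bij_mul D hb)), Fintype.sum_prod_type,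
      Finset.mul_sum]
    refine Finset.sum_congr rfl fun e _ => ?_
    rw [← hkey e, Finset.mul_sum]
    refine Finset.sum_congr rfl fun n _ => ?_
    rw [Equiv.ofBijective_apply, hπ e n]
    rfl
  have h3 : ∑ e : E, θ e * dt e = (Nat.card E : ℂ) * ((z1 - z2 : ℤ) : ℂ) := by
    have hNc := card_ne_zero' (N x₀)
    have hEc := card_ne_zero' E
    rw [p1, h2, hcard] at hz1
    rw [p2] at hz2
    push_cast
    rw [← hz1, ← hz2]
    simp_rw [mul_add]
    rw [Finset.sum_add_distrib]
    field_simp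
    ring
  refine ⟨z1 - z2, ?_⟩
  rw [← h3]
  symm
  refine Fintype.sum_of_injective (fun e : E => (e : G)) Subtype.val_injective _ _ ?_ ?_
  · intro x hx
    refine dif_neg ?_
    rintro ⟨b1, b2⟩
    apply hx
    refine ⟨⟨x, Subgroup.mem_inf.2 ⟨?_, D.le b1.1⟩⟩, rfl⟩
    rw [← b2]
    exact D.cent x b1 x rfl
  · intro e
    by_cases h : Bad M H e ∧ L e = L x₀
    · rw [dif_pos h]
      have h5 : dt e = dev M H N ψ e := if_pos h
      rw [h5]
      rfl
    · rw [dif_neg h]
      have h5 : dt e = 0 := if_neg h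
      rw [h5, mul_zero]

/-- grouping the bad elements according to the `M`-class of `L x` -/
theorem orbit_sum [Fintype G] (D : LiftData M H L N) (b : G → ℂ) (hb0 : ∀ x, ¬ Bad M H x → b x = 0)
    (hbm : ∀ m ∈ M, ∀ x, b (m * x * m⁻¹) = b x)
    (hz : ∀ x₀, Bad M H x₀ → ∃ z : ℤ, (∑ x : G, if Bad M H x ∧ L x = L x₀ then b x else 0) =
      (Nat.card (L x₀ ⊓ M : Subgroup G) : ℂ) * z) :
    ∃ z : ℤ, ∑ x : G, b x = (Nat.card M : ℂ) * z := by
  let rel : G → G → Prop := fun x y => ∃ m ∈ M, ∀ g : G, g ∈ L y ↔ m⁻¹ * g * m ∈ L x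
  let s : Setoid G := ⟨rel, ⟨fun x => ⟨1, M.one_mem, fun g => by simp⟩, by
    rintro x y ⟨m, hm, h⟩
    refine ⟨m⁻¹, M.inv_mem hm, fun g => ?_⟩
    rw [inv_inv, h]
    have e : m⁻¹ * (m * g * m⁻¹) * m = g := by group
    rw [e], by
    rintro x y z ⟨m, hm, h⟩ ⟨m', hm', h'⟩
    refine ⟨m' * m, M.mul_mem hm' hm, fun g => ?_⟩
    rw [h', h]
    have e : m⁻¹ * (m'⁻¹ * g * m') * m = (m' * m)⁻¹ * g * (m' * m) := by group
    rw [e]⟩⟩
  have key : ∀ q : Quotient s, ∃ z : ℤ, ∑ x ∈ Finset.univ.filter (fun x : G =>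
      (Quotient.mk s x : Quotient s) = q), b x = (Nat.card M : ℂ) * z := by
    intro q
    by_cases hq : ∃ x₀, Bad M H x₀ ∧ (Quotient.mk s x₀ : Quotient s) = q
    · obtain ⟨x₀, hx₀, rfl⟩ := hq
      obtain ⟨z, hz⟩ := hz x₀ hx₀
      refine ⟨z, ?_⟩
      have hE := card_ne_zero' (L x₀ ⊓ M : Subgroup G)
      -- number of `m` carrying `L y` to `L x₀`
      have hcnt : ∀ y, rel x₀ y →
          (Finset.univ.filter fun m : M => ∀ g : G, g ∈ L y ↔ (m : G)⁻¹ * g * m ∈ L x₀).card =
            Nat.card (L x₀ ⊓ M : Subgroup G) := by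
        rintro y ⟨m₀, hm₀, h₀⟩
        have e0 : (Finset.univ.filter fun m : M =>
            ∀ g : G, g ∈ L y ↔ (m : G)⁻¹ * g * m ∈ L x₀).card =
            Nat.card {m : M // ∀ g : G, g ∈ L y ↔ (m : G)⁻¹ * g * m ∈ L x₀} := by
          rw [Nat.card_eq_fintype_card, Fintype.card_subtype]
        rw [e0]
        have hstab : ∀ l ∈ L x₀, ∀ g : G, g ∈ L x₀ ↔ l⁻¹ * g * l ∈ L x₀ := by
          intro l hl g
          constructor
          · intro hg
            exact (L x₀).mul_mem ((L x₀).mul_mem ((L x₀).inv_mem hl) hg) hl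
          · intro hg
            have e : g = l * (l⁻¹ * g * l) * l⁻¹ := by group
            rw [e]
            exact (L x₀).mul_mem ((L x₀).mul_mem hl hg) ((L x₀).inv_mem hl)
        refine Nat.card_congr
          { toFun := fun m => ⟨m₀⁻¹ * m, Subgroup.mem_inf.2 ⟨?_, M.mul_mem (M.inv_mem hm₀) m.1.2⟩⟩
            invFun := fun e => ⟨⟨m₀ * e, M.mul_mem hm₀ (Subgroup.mem_inf.1 e.2).2⟩, ?_⟩
            left_inv := fun m => Subtype.ext (Subtype.ext (by simp))
            right_inv := fun e => Subtype.ext (by simp) }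
        · refine D.self x₀ hx₀ _ (M.mul_mem (M.inv_mem hm₀) m.1.2) fun g => ?_
          have e1 : (m₀⁻¹ * (m.1 : G))⁻¹ * g * (m₀⁻¹ * m.1) =
              (m.1 : G)⁻¹ * (m₀ * g * m₀⁻¹) * m.1 := by group
          rw [e1, ← m.2, h₀]
          have e2 : m₀⁻¹ * (m₀ * g * m₀⁻¹) * m₀ = g := by group
          rw [e2]
        · intro g
          have e1 : (m₀ * (e : G))⁻¹ * g * (m₀ * e) = (e : G)⁻¹ * (m₀⁻¹ * g * m₀) * e := by group
          change g ∈ L y ↔ (m₀ * (e : G))⁻¹ * g * (m₀ * e) ∈ L x₀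
          rw [h₀, e1]
          exact hstab e (Subgroup.mem_inf.1 e.2).1 _
      have h1 : (Nat.card M : ℂ) * ∑ x : G, (if Bad M H x ∧ L x = L x₀ then b x else 0) =
          ∑ m : M, ∑ y : G, if Bad M H y ∧ (∀ g : G, g ∈ L y ↔ (m : G)⁻¹ * g * m ∈ L x₀)
            then b y else 0 := by
        have h2 : ∀ m : M, (∑ x : G, if Bad M H x ∧ L x = L x₀ then b x else 0) =
            ∑ y : G, if Bad M H y ∧ (∀ g : G, g ∈ L y ↔ (m : G)⁻¹ * g * m ∈ L x₀)
              then b y else 0 := by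
          intro m
          rw [← Equiv.sum_comp (MulAut.conj (m : G)⁻¹).toEquiv]
          refine Finset.sum_congr rfl fun y _ => ?_
          have e1 : (MulAut.conj (m : G)⁻¹).toEquiv y = (m : G)⁻¹ * y * (m : G)⁻¹⁻¹ := by
            simp
          rw [e1]
          have e2 : (Bad M H ((m : G)⁻¹ * y * (m : G)⁻¹⁻¹) ∧
              L ((m : G)⁻¹ * y * (m : G)⁻¹⁻¹) = L x₀) ↔
              (Bad M H y ∧ ∀ g : G, g ∈ L y ↔ (m : G)⁻¹ * g * m ∈ L x₀) := by
            have e3 : Bad M H ((m : G)⁻¹ * y * (m : G)⁻¹⁻¹) ↔ Bad M H y := by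
              constructor
              · intro h
                have h5 := h.conj D m.2
                have e : (m : G) * ((m : G)⁻¹ * y * (m : G)⁻¹⁻¹) * (m : G)⁻¹ = y := by group
                rwa [e] at h5
              · intro h
                exact h.conj D (M.inv_mem m.2)
            rw [e3]
            refine and_congr_right fun hy => ?_
            rw [SetLike.ext_iff]
            constructor
            · intro h g
              rw [← h, D.Lconj y hy _ (M.inv_mem m.2), inv_inv]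
              have e : (m : G) * ((m : G)⁻¹ * g * m) * (m : G)⁻¹ = g := by group
              rw [e]
            · intro h g
              rw [D.Lconj y hy _ (M.inv_mem m.2), inv_inv, h]
              have e : (m : G)⁻¹ * (m * g * (m : G)⁻¹) * m = g := by group
              rw [e]
          by_cases h : Bad M H y ∧ ∀ g : G, g ∈ L y ↔ (m : G)⁻¹ * g * m ∈ L x₀
          · rw [if_pos (e2.2 h), if_pos h, hbm _ (M.inv_mem m.2)]
          · rw [if_neg (fun h' => h (e2.1 h')), if_neg h]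
        rw [← Finset.sum_congr rfl fun m _ => h2 m, Finset.sum_const, Finset.card_univ,
          nsmul_eq_mul, Nat.card_eq_fintype_card]
      rw [Finset.sum_comm] at h1
      have h3 : ∀ y : G, (∑ m : M, if Bad M H y ∧ (∀ g : G, g ∈ L y ↔ (m : G)⁻¹ * g * m ∈ L x₀)
            then b y else 0) = (Nat.card (L x₀ ⊓ M : Subgroup G) : ℂ) *
            (if (Quotient.mk s y : Quotient s) = Quotient.mk s x₀ then b y else 0) := by
        intro y
        by_cases hy : Bad M H y
        · by_cases hq : (Quotient.mk s y : Quotient s) = Quotient.mk s x₀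
          · have hr : rel x₀ y := s.symm (Quotient.exact hq)
            rw [if_pos hq, ← hcnt y hr, ← Finset.sum_filter, Finset.sum_const, nsmul_eq_mul]
            congr 2
            refine Finset.card_bij (fun m _ => m) ?_ (fun _ _ _ _ h => h) ?_
            · intro m hm
              rw [Finset.mem_filter] at hm ⊢
              exact ⟨hm.1, hm.2.2⟩
            · intro m hm
              rw [Finset.mem_filter] at hm
              exact ⟨m, Finset.mem_filter.2 ⟨hm.1, hy, hm.2⟩, rfl⟩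
          · rw [if_neg hq, mul_zero]
            refine Finset.sum_eq_zero fun m _ => ?_
            rw [if_neg]
            rintro ⟨-, h⟩
            exact hq (Quotient.sound (s.symm ⟨m, m.2, h⟩))
        · rw [hb0 y hy]
          simp
      simp_rw [h3] at h1
      rw [← Finset.mul_sum, hz, ← Finset.sum_filter] at h1
      apply mul_left_cancel₀ hE
      rw [← h1]
      ring
    · refine ⟨0, ?_⟩
      rw [Int.cast_zero, mul_zero]
      refine Finset.sum_eq_zero fun x hx => ?_
      rw [Finset.mem_filter] at hx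
      exact hb0 x fun h => hq ⟨x, h, hx.2⟩
  choose z hz using key
  refine ⟨∑ q : Quotient s, z q, ?_⟩
  rw [← Finset.sum_fiberwise (s := Finset.univ) (g := fun x : G => (Quotient.mk s x : Quotient s))]
  push_cast
  rw [Finset.mul_sum]
  exact Finset.sum_congr rfl fun q _ => hz q

/-- **The lift theorem.** Lifts of virtual characters vanishing off `H#` are virtual characters. -/
theorem IsLift.vir [Finite G] (D : LiftData M H L N) (hac : ∀ m x : M, a (m * x * m⁻¹) = a x)
    (hav : Vir a) (ha : ∀ x : M, ((x : G) ∉ H ∨ x = 1) → a x = 0) (hf : IsLift M H N a f) :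
    Vir f := by
  let _ : Fintype G := Fintype.ofFinite G
  intro V _ _ _ ρ
  set ψ : G → ℂ := fun g => ρ.character g⁻¹ with hψdef
  have hψ : ∀ g x : G, ψ (g * x * g⁻¹) = ψ x := by
    intro g x
    have e : (g * x * g⁻¹)⁻¹ = g * x⁻¹ * g⁻¹ := by group
    simp only [hψdef, e]
    exact ρ.char_conj x⁻¹ g
  have hM := card_ne_zero' M
  obtain ⟨z1, hz1⟩ := hav V (ρ.comp M.subtype)
  have p1 : ipF a (Representation.character (ρ.comp M.subtype)) =
      (Nat.card M : ℂ)⁻¹ * ∑ x : M, a x * ψ x := by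
    rw [ipF_eq]
    rfl
  let b : G → ℂ := fun x => if h : Bad M H x then a ⟨x, D.le h.1⟩ * dev M H N ψ x else 0
  have hb : ∃ z : ℤ, ∑ x : G, b x = (Nat.card M : ℂ) * z := by
    refine orbit_sum D b (fun x hx => dif_neg hx) ?_ ?_
    · intro m hm x
      by_cases hx : Bad M H x
      · have hx' := hx.conj D hm
        change (if h : Bad M H (m * x * m⁻¹) then a ⟨m * x * m⁻¹, D.le h.1⟩ *
          dev M H N ψ (m * x * m⁻¹) else 0) = (if h : Bad M H x then a ⟨x, D.le h.1⟩ *
          dev M H N ψ x else 0)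
        rw [dif_pos hx, dif_pos hx', dev_conj D hψ hx.1 hx.2.1 hx'.1]
        congr 1
        exact hac ⟨m, hm⟩ ⟨x, D.le hx.1⟩
      · have hx' : ¬ Bad M H (m * x * m⁻¹) := by
          intro h
          have h1 := h.conj D (M.inv_mem hm)
          have e : m⁻¹ * (m * x * m⁻¹) * m⁻¹⁻¹ = x := by group
          rw [e] at h1
          exact hx h1
        change (if h : Bad M H (m * x * m⁻¹) then a ⟨m * x * m⁻¹, D.le h.1⟩ *
          dev M H N ψ (m * x * m⁻¹) else 0) = (if h : Bad M H x then a ⟨x, D.le h.1⟩ *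
          dev M H N ψ x else 0)
        rw [dif_neg hx, dif_neg hx']
    · intro x₀ hx₀
      obtain ⟨z, hz⟩ := int_one D hac hav ha ρ hx₀
      refine ⟨z, ?_⟩
      rw [← hz]
      refine Finset.sum_congr rfl fun x _ => ?_
      by_cases h : Bad M H x ∧ L x = L x₀
      · rw [if_pos h, dif_pos h]
        exact dif_pos h.1
      · rw [if_neg h, dif_neg h]
  obtain ⟨z2, hz2⟩ := hb
  refine ⟨z1 + z2, ?_⟩
  rw [hf.ip D (fun g x => ρ.char_conj x g)]
  rw [p1] at hz1
  have h2 : ∀ x : M, (if (x : G) ∈ H ∧ x ≠ 1 then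
      ((Nat.card M : ℂ) * Nat.card (RR M H N x))⁻¹ *
        ∑ r : RR M H N x, a x * ρ.character ((x : G) * r)⁻¹ else 0) =
      (Nat.card M : ℂ)⁻¹ * (a x * ψ x) + (Nat.card M : ℂ)⁻¹ * b x := by
    intro x
    have hR := card_ne_zero' (RR M H N (x : G))
    by_cases hx : (x : G) ∈ H ∧ x ≠ 1
    · rw [if_pos hx, ← Finset.mul_sum]
      by_cases hbx : Bad M H (x : G)
      · have h3 : b x = a x * dev M H N ψ x := dif_pos hbx
        rw [h3]
        unfold dev
        change _ = (Nat.card M : ℂ)⁻¹ * (a x * ψ x) + (Nat.card M : ℂ)⁻¹ * (a x *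
          ((Nat.card (RR M H N (x : G)) : ℂ)⁻¹ *
            ∑ r : RR M H N (x : G), ρ.character ((x : G) * r)⁻¹ - ψ x))
        rw [mul_inv]
        ring
      · have h3 : b x = 0 := dif_neg hbx
        have h4 := sum_triv (RR M H N (x : G)) (fun r hr => (mem_RR_good hbx).1 hr) ψ (x : G)
        have h5 : ∑ r : RR M H N (x : G), ρ.character ((x : G) * r)⁻¹ =
            (Nat.card (RR M H N (x : G)) : ℂ) * ψ x := h4
        rw [h5, h3]
        field_simp
        ring
    · rw [if_neg hx, ha x (by tauto)]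
      have h3 : b x = 0 := by
        refine dif_neg fun h => hx ⟨h.1, fun h' => h.2.1 (congrArg Subtype.val h')⟩
      rw [h3]
      ring
  simp_rw [h2]
  rw [Finset.sum_add_distrib, ← Finset.mul_sum, ← Finset.mul_sum, hz1]
  have h6 : ∑ x : M, b x = ∑ x : G, b x := by
    refine Fintype.sum_of_injective (fun x : M => (x : G)) Subtype.val_injective _ _ ?_
      (fun _ => rfl)
    intro x hx
    refine dif_neg fun h => hx ⟨⟨x, D.le h.1⟩, rfl⟩
  rw [h6, hz2]
  push_cast
  field_simp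

end Pool.Agent.H1.LF
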